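import Pool.Agent.Helper24.HW.Stmts

/-! # HW: the flag system of a labelled rotation system -/

set_option autoImplicit false

namespace Pool.Agent.Helper91.HW

open Equiv Equiv.Perm Pool.Agent.Helper24.HW Pool.Agent.Helper24.HWPub Pool.Agent.Helper98.Gn

section gen

variable {D : Type}

theorem cyc_two (h2 : ST_SUM) [Finite D] (f g : Perm D) (u : Perm (D × Bool))
    (hf : ∀ x, u (x, false) = (f x, false)) (hg : ∀ x, u (x, true) = (g x, true)) :
    cyc u = cyc f + cyc g := by
  rw [← h2 D D f g]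
  refine cyc_congr ((Equiv.prodComm D Bool).trans (Equiv.boolProdEquivSum D)) u
    (Perm.sumCongr f g) ?_
  rintro ⟨x, b⟩
  cases b
  · rw [hf]
    rfl
  · rw [hg]
    rfl

theorem sc_lift [Finite D] (f : Perm D) (u : Perm (D × Bool))
    (hf : ∀ x, u (x, false) = (f x, false)) (x y : D) :
    SameCycle u (x, false) (y, false) ↔ SameCycle f x y := by
  constructor
  · intro h
    have h1 : ∀ z ∈ {z : D × Bool | z.2 = false ∧ SameCycle f x z.1}, u z ∈
        {z : D × Bool | z.2 = false ∧ SameCycle f x z.1} := by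
      rintro ⟨z, b⟩ ⟨hb, hz⟩
      simp only at hb hz
      subst hb
      rw [hf]
      exact ⟨rfl, hz.trans (sc_step f z)⟩
    exact (mem_of_sc h1 h ⟨rfl, SameCycle.refl f x⟩).2
  · intro h
    refine sc_induct (π := f) (fun a b => SameCycle u (a, false) (b, false))
      (fun a => SameCycle.refl _ _) (fun a b c h1 h2 => h1.trans h2) (fun z => ?_) h
    have h1 := sc_step u (z, false)
    rw [hf] at h1
    exact h1

theorem sc_snd [Finite D] (f : Perm D) (u : Perm (D × Bool))
    (hf : ∀ x, u (x, false) = (f x, false)) (x y : D) :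
    ¬ SameCycle u (x, true) (y, false) := by
  intro h
  have h1 : ∀ z ∈ {z : D × Bool | z.2 = false}, u z ∈ {z : D × Bool | z.2 = false} := by
    rintro ⟨z, b⟩ hb
    change b = false at hb
    subst hb
    rw [hf]
    rfl
  have h2 := mem_of_sc h1 h.symm rfl
  simp at h2

end gen

variable {C : Type} (M : LM C)

theorem f0 (x : M.D) (b : Bool) : M.flg 0 (x, b) = (x, !b) := rfl

theorem f1f (x : M.D) : M.flg 1 (x, false) = (M.σ.symm x, true) := rfl

theorem f1t (x : M.D) : M.flg 1 (x, true) = (M.σ x, false) := rfl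

theorem f2 (x : M.D) (b : Bool) : M.flg 2 (x, b) = (M.α x, !b) := rfl

theorem snd_flg : ∀ i f, (M.flg i f).2 = !f.2 := by
  intro i f
  obtain ⟨x, b⟩ := f
  fin_cases i
  · rfl
  · cases b <;> rfl
  · rfl

theorem inv_flg : ∀ i f, M.flg i (M.flg i f) = f := by
  intro i f
  obtain ⟨x, b⟩ := f
  fin_cases i
  · change M.flg 0 (M.flg 0 (x, b)) = (x, b)
    rw [f0, f0, Bool.not_not]
  · change M.flg 1 (M.flg 1 (x, b)) = (x, b)
    cases b
    · rw [f1f, f1t, Equiv.apply_symm_apply]
    · rw [f1t, f1f, Equiv.symm_apply_apply]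
  · change M.flg 2 (M.flg 2 (x, b)) = (x, b)
    rw [f2, f2, Bool.not_not, M.hα]

theorem ne_flg : ∀ i f, M.flg i f ≠ f := by
  intro i f h
  have h1 := snd_flg M i f
  rw [h] at h1
  cases h2 : f.2
  · rw [h2] at h1
    simp at h1
  · rw [h2] at h1
    simp at h1

theorem orb (G : Subgroup (Perm (M.D × Bool))) (hG : ∀ i, M.flg i ∈ G) (i : Fin 3)
    (f : M.D × Bool) : (MulAction.orbitRel G (M.D × Bool)) (M.flg i f) f := by
  rw [MulAction.orbitRel_apply]
  exact ⟨⟨M.flg i, hG i⟩, rfl⟩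

theorem conn_flg (hM : M.Conn) :
    ∀ f g : M.D × Bool, g ∈ MulAction.orbit (Subgroup.closure (Set.range M.flg)) f := by
  set G := Subgroup.closure (Set.range M.flg) with hGd
  have hG : ∀ i, M.flg i ∈ G := fun i => Subgroup.subset_closure ⟨i, rfl⟩
  set r := MulAction.orbitRel G (M.D × Bool) with hr
  have h0 : ∀ i f, r (M.flg i f) f := fun i f => orb M G hG i f
  have h1 : ∀ x y : M.D, Relation.EqvGen (fun u v => v = M.σ u ∨ v = M.α u) x y →
      r (x, false) (y, false) := by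
    intro x y h
    induction h with
    | rel a b hab =>
      rcases hab with rfl | rfl
      · have e1 := h0 0 (a, false)
        have e2 := h0 1 (a, true)
        rw [f0] at e1
        rw [f1t] at e2
        exact r.trans (r.symm e1) (r.symm e2)
      · have e1 := h0 0 (a, false)
        have e2 := h0 2 (a, true)
        rw [f0] at e1
        rw [f2] at e2
        exact r.trans (r.symm e1) (r.symm e2)
    | refl a => exact r.refl _
    | symm a b _ ih => exact r.symm ih
    | trans a b c _ _ ih1 ih2 => exact r.trans ih1 ih2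
  have h2 : ∀ (x : M.D) (b : Bool), r (x, b) (x, false) := by
    intro x b
    cases b
    · exact r.refl _
    · have e1 := h0 0 (x, false)
      rw [f0] at e1
      exact e1
  intro f g
  obtain ⟨x, b⟩ := f
  obtain ⟨y, c⟩ := g
  have h3 : r (y, c) (x, b) :=
    r.trans (h2 y c) (r.trans (r.symm (h1 x y (hM x y))) (r.symm (h2 x b)))
  rw [hr, MulAction.orbitRel_apply] at h3
  exact h3

theorem e01f (x : M.D) : (M.flg 0 * M.flg 1) (x, false) = (M.σ⁻¹ x, false) := by
  rw [Perm.mul_apply, f1f, f0]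
  rfl

theorem e01t (x : M.D) : (M.flg 0 * M.flg 1) (x, true) = (M.σ x, true) := by
  rw [Perm.mul_apply, f1t, f0]
  rfl

theorem num01 (hD : ST_DIH) (hC : ST_CNJ) (hS : ST_SUM) : num (M.flg 0) (M.flg 1) = cyc M.σ := by
  have h := (hD (M.D × Bool) (M.flg 0) (M.flg 1) (inv_flg M 0) (inv_flg M 1) (ne_flg M 0)
    (ne_flg M 1)).1
  rw [cyc_two hS M.σ⁻¹ M.σ _ (e01f M) (e01t M), (hC M.D M.σ M.σ).2] at h
  omega

theorem num02 (hD : ST_DIH) (hU : ST_CUB) (hS : ST_SUM) :
    num (M.flg 0) (M.flg 2) = Nat.card M.D / 2 := by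
  have h := (hD (M.D × Bool) (M.flg 0) (M.flg 2) (inv_flg M 0) (inv_flg M 2) (ne_flg M 0)
    (ne_flg M 2)).1
  have h1 := (hU M.D M.α).1 M.hα M.hne
  rw [cyc_two hS M.α M.α _ (fun x => by rw [Perm.mul_apply, f2, f0]; rfl)
    (fun x => by rw [Perm.mul_apply, f2, f0]; rfl)] at h
  omega

theorem num12 (hD : ST_DIH) (hC : ST_CNJ) (hS : ST_SUM) :
    num (M.flg 1) (M.flg 2) = cyc (M.σ * M.α) := by
  have h := (hD (M.D × Bool) (M.flg 1) (M.flg 2) (inv_flg M 1) (inv_flg M 2) (ne_flg M 1)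
    (ne_flg M 2)).1
  rw [cyc_two hS (M.σ * M.α) (M.σ⁻¹ * M.α) _ (fun x => by rw [Perm.mul_apply, f2]; rfl)
    (fun x => by rw [Perm.mul_apply, f2]; rfl)] at h
  have h1 : cyc (M.σ⁻¹ * M.α) = cyc (M.σ * M.α) := by
    have e1 : (M.σ⁻¹ * M.α)⁻¹ = M.α * M.σ := by
      rw [mul_inv_rev, inv_inv]
      congr 1
      ext x
      rw [Perm.inv_eq_iff_eq]
      exact (M.hα x).symm
    rw [← (hC M.D (M.σ⁻¹ * M.α) 1).2, e1, (hC M.D M.α M.σ).1]
  rw [h1] at h
  omega

theorem part (hD : ST_DIH) (c : C → ℕ) (hc : Function.Injective c) (A : C) :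
    {O : MulAction.orbitRel.Quotient (Subgroup.closure {M.flg 0, M.flg 1}) (M.D × Bool) |
      ∃ f, c (M.ℓ f.1) = c A ∧ Quotient.mk _ f = O}.ncard = M.pt A := by
  have h := (hD (M.D × Bool) (M.flg 0) (M.flg 1) (inv_flg M 0) (inv_flg M 1) (ne_flg M 0)
    (ne_flg M 1)).2.2
  have hrel : ∀ x y : M.D, (MulAction.orbitRel (Subgroup.closure {M.flg 0, M.flg 1})
      (M.D × Bool)) (x, false) (y, false) ↔ SameCycle M.σ x y := by
    intro x y
    rw [MulAction.orbitRel_apply, h, f1f, sc_lift M.σ⁻¹ _ (e01f M), sameCycle_inv]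
    constructor
    · rintro (h1 | h1)
      · exact h1.symm
      · exact absurd h1 (sc_snd M.σ⁻¹ _ (e01f M) _ _)
    · intro h1
      exact Or.inl h1.symm
  have h0 : ∀ x : M.D, (MulAction.orbitRel (Subgroup.closure {M.flg 0, M.flg 1})
      (M.D × Bool)) (x, false) (x, true) := by
    intro x
    rw [MulAction.orbitRel_apply]
    refine ⟨⟨M.flg 0, Subgroup.subset_closure (Set.mem_insert _ _)⟩, ?_⟩
    exact f0 M x true
  let F : Quotient (SameCycle.setoid M.σ) →
      MulAction.orbitRel.Quotient (Subgroup.closure {M.flg 0, M.flg 1}) (M.D × Bool) :=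
    Quotient.lift (fun x => Quotient.mk _ (x, false))
      (fun x y hxy => Quotient.sound ((hrel x y).2 hxy))
  have hF : Function.Injective F := by
    intro p q
    induction p using Quotient.inductionOn with
    | h x =>
      induction q using Quotient.inductionOn with
      | h y =>
        intro hxy
        exact Quotient.sound ((hrel x y).1 (Quotient.exact hxy))
  have himg : {O : MulAction.orbitRel.Quotient (Subgroup.closure {M.flg 0, M.flg 1})
      (M.D × Bool) | ∃ f, c (M.ℓ f.1) = c A ∧ Quotient.mk _ f = O} =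
      F '' {O : Quotient (SameCycle.setoid M.σ) | ∃ x, M.ℓ x = A ∧ Quotient.mk _ x = O} := by
    ext O
    constructor
    · rintro ⟨⟨x, b⟩, h1, rfl⟩
      refine ⟨Quotient.mk _ x, ⟨x, hc h1, rfl⟩, ?_⟩
      cases b
      · rfl
      · exact Quotient.sound (h0 x)
    · rintro ⟨_, ⟨x, h1, rfl⟩, rfl⟩
      exact ⟨(x, false), by rw [← h1], rfl⟩
  rw [himg, Set.ncard_image_of_injective _ hF]
  rfl

theorem FLG (hD : ST_DIH) (hU : ST_CUB) (hC : ST_CNJ) (hS : ST_SUM) : ST_FLG := by
  intro C M hM hne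
  refine ⟨⟨inv_flg M, ne_flg M, ?_, ?_, ?_, conn_flg M hM⟩, ?_, snd_flg M,
    fun c hc A => part M hD c hc A, ?_⟩
  · rintro ⟨x, b⟩
    rw [f2, f0, f0, f2]
  · rintro ⟨x, b⟩ h
    rw [f2, f0, Bool.not_not] at h
    exact M.hne x (congrArg Prod.fst h)
  · exact ⟨(hne.some, true)⟩
  · unfold euler LM.chi
    rw [num12 M hD hC hS, num02 M hD hU hS, num01 M hD hC hS]
    ring
  · intro x hx
    rw [f1f, f2]
    have h1 : M.σ.symm x = M.α x := by
      rw [Equiv.symm_apply_eq]
      exact hx.symm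
    rw [h1]
    rfl

end Pool.Agent.Helper91.HW
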